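import Pool.Agent.H.MP_20495c_lc.TE.Typ

/-!
# MP_20495c_lc, block IT, part 2: pulling a poset back along an internal surjection
-/

set_option autoImplicit false
set_option linter.unusedSectionVars false

namespace Pool.Agent.H.MP_20495c_lc

open Pool.Agent.H.MP_07d118_lc Pool.Agent.H.MP_a163f2_lc

universe u v w x

variable {N : Set ZFSet.{0}} [Mdl N] {P : Type v} [Cd N P] {T : Type w} [Cd N T] {V : Set P}
  {le : P → P → Prop} {H : Set P} {j : T → P}

theorem po_pull (hP : Po N V le) (hj : IF N j) :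
    Po N {t : T | j t ∈ V} (fun a b => le (j a) (j b)) where
  inV := hP.inV.comp hj
  inle := In.comp (P := fun y : P × P => y.1 ∈ V ∧ y.2 ∈ V ∧ le y.1 y.2) hP.inle
    (f := fun y : T × T => (j y.1, j y.2)) (IF.pair (hj.comp IF.fst) (hj.comp IF.snd))
  refl _ ht := hP.refl _ ht
  trans _ ha _ hb _ hc h1 h2 := hP.trans _ ha _ hb _ hc h1 h2

theorem gt_pull (hG : Gt N V le H) (hj : IF N j) (hs : ∀ p ∈ V, ∃ t, j t = p) :
    Gt N {t : T | j t ∈ V} (fun a b => le (j a) (j b)) {t : T | j t ∈ H} where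
  sub _ ht := hG.sub _ ht
  ne := by
    obtain ⟨p, hp⟩ := hG.ne
    obtain ⟨t, rfl⟩ := hs p (hG.sub p hp)
    exact ⟨t, hp⟩
  up _ ha _ hb h := hG.up _ ha _ hb h
  dir a ha b hb := by
    obtain ⟨r, hr, h1, h2⟩ := hG.dir _ ha _ hb
    obtain ⟨t, rfl⟩ := hs r (hG.sub r hr)
    exact ⟨t, hr, h1, h2⟩
  meets D hD := by
    have h1 : In N (fun p : P => ∃ t, t ∈ D ∧ j t = p) := by
      refine In.ex (P := fun (p : P) (t : T) => t ∈ D ∧ j t = p) (In.and ?_ ?_)
      · exact D.in_mem.comp IF.snd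
      · exact In.eq (hj.comp IF.snd) IF.fst
    obtain ⟨p, hp, t, ht, rfl⟩ := hG.meets (ISet.mk h1) (by
      intro p hp
      obtain ⟨t, rfl⟩ := hs p hp
      obtain ⟨u, hu, h2, h3⟩ := hD t hp
      exact ⟨j u, hu, h2, u, h3, rfl⟩)
    exact ⟨t, hp, ht⟩

theorem ext_pull (hP : Po N V le) (hG : Gt N V le H) (hj : IF N j) (hs : ∀ p ∈ V, ∃ t, j t = p) :
    ext N {t : T | j t ∈ H} = ext N H := by
  have hP' := po_pull (T := T) hP hj
  have hG' := gt_pull hG hj hs
  apply Set.Subset.antisymm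
  · have := ext_mdl hP hG
    have hsub := sub_ext hP hG
    let _ := CdUp hsub T
    let _ := CdUp hsub P
    have := cx_up hsub T
    have := cx_up hsub P
    have h1 : In (ext N H) (fun p : P => p ∈ H) := In_gen hP hG rfl
    have h2 : IF (ext N H) j := IF_up hsub hj
    exact ext_sub hsub (h1.comp h2)
  · have := ext_mdl hP' hG'
    have hsub := sub_ext hP' hG'
    let _ := CdUp hsub T
    let _ := CdUp hsub P
    have := cx_up hsub T
    have := cx_up hsub P
    have h1 : In (ext N {t : T | j t ∈ H}) (fun t : T => t ∈ {t : T | j t ∈ H}) := In_gen hP' hG' rfl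
    have h2 : IF (ext N {t : T | j t ∈ H}) j := IF_up hsub hj
    refine ext_sub hsub (In.congr (P := fun p : P => ∃ t : T, t ∈ {t : T | j t ∈ H} ∧ j t = p) ?_ ?_)
    · refine In.ex (P := fun (p : P) (t : T) => t ∈ {t : T | j t ∈ H} ∧ j t = p) (In.and ?_ ?_)
      · exact h1.comp IF.snd
      · exact In.eq (h2.comp IF.snd) IF.fst
    · intro p
      constructor
      · intro hp
        obtain ⟨t, rfl⟩ := hs p (hG.sub p hp)
        exact ⟨t, hp, rfl⟩
      · rintro ⟨t, ht, rfl⟩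
        exact ht

end Pool.Agent.H.MP_20495c_lc
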