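import Pool.Agent.H.MP_20495c_lc.TE.Typ

/-!
# MP_20495c_lc, block IT, part 3: two-step iterations of typed posets
-/

set_option autoImplicit false
set_option linter.unusedSectionVars false

namespace Pool.Agent.H.MP_20495c_lc

open Pool.Agent.H.MP_07d118_lc Pool.Agent.H.MP_a163f2_lc

universe u v w x

section

variable {S : Set ZFSet.{0}} [Mdl S] {P : Type v} [Cd S P] {V : Set P} {le : P → P → Prop}
  {G : Set P}

/-- the order on the conditions -/
def lw (V : Set P) (le : P → P → Prop) (q p : P) : Prop := q ∈ V ∧ p ∈ V ∧ le q p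

theorem Po.inlw (hP : Po S V le) : In S (fun y : P × P => lw V le y.1 y.2) := hP.inle

theorem Po.lw_refl (hP : Po S V le) {p : P} (hp : p ∈ V) : lw V le p p := ⟨hp, hp, hP.refl p hp⟩

theorem Po.lw_trans (hP : Po S V le) {p q r : P} (h : lw V le p q) (h' : lw V le q r) :
    lw V le p r := ⟨h.1, h'.2.1, hP.trans p h.1 q h.2.1 r h'.2.1 h.2.2 h'.2.2⟩

theorem Gt.lw_up (hG : Gt S V le G) {p q : P} (hp : p ∈ G) (h : lw V le p q) : q ∈ G :=
  hG.up p hp q h.2.1 h.2.2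

theorem Gt.lw_dir (hG : Gt S V le G) {p q : P} (hp : p ∈ G) (hq : q ∈ G) :
    ∃ r ∈ G, lw V le r p ∧ lw V le r q := by
  obtain ⟨r, hr, h1, h2⟩ := hG.dir p hp q hq
  exact ⟨r, hr, ⟨hG.sub r hr, hG.sub p hp, h1⟩, hG.sub r hr, hG.sub q hq, h2⟩

/-- a set which is dense below a member of the filter meets the filter -/
theorem Gt.belw (hP : Po S V le) (hG : Gt S V le G) {D : P → Prop} (hD : In S D) {p : P}
    (hp : p ∈ G) (h : ∀ q, lw V le q p → ∃ r, lw V le r q ∧ D r) : ∃ r ∈ G, D r := by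
  have h1 : In S (fun r : P => D r ∨ ¬ ∃ s, lw V le s r ∧ lw V le s p) := by
    refine In.or hD (In.not (In.ex (P := fun (r s : P) => lw V le s r ∧ lw V le s p)
      (In.and ?_ ?_)))
    · exact hP.inlw.comp (f := fun y : P × P => (y.2, y.1)) (IF.pair IF.snd IF.fst)
    · exact hP.inlw.comp (f := fun y : P × P => (y.2, p)) (IF.pair IF.snd (IF.const p))
  obtain ⟨r, hr, h2 | h2⟩ := hG.meets (ISet.mk h1) (by
    intro q hq
    by_cases hc : ∃ s, lw V le s q ∧ lw V le s p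
    · obtain ⟨s, h3, h4⟩ := hc
      obtain ⟨r, h5, h6⟩ := h s h4
      have h7 := hP.lw_trans h5 h3
      exact ⟨r, h7.1, h7.2.2, Or.inl h6⟩
    · exact ⟨q, hq, hP.refl q hq, Or.inr hc⟩)
  · exact ⟨r, hr, h2⟩
  · obtain ⟨s, -, h3, h4⟩ := hG.lw_dir hr hp
    exact absurd ⟨s, h3, h4⟩ h2

variable {U : Type w} [Cd S U]

/-- the forcing relation for a name of a subset of `U` -/
def Fd (V : Set P) (le : P → P → Prop) (F : U × P → Prop) (p : P) (t : U) : Prop :=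
  ∀ q, lw V le q p → ∃ r, lw V le r q ∧ ∃ s, lw V le r s ∧ F (t, s)

theorem Fd.inI (hP : Po S V le) {F : U × P → Prop} (hF : In S F) :
    In S (fun y : P × U => Fd V le F y.1 y.2) := by
  refine In.all (P := fun (y : P × U) (q : P) => lw V le q y.1 → ∃ r, lw V le r q ∧
    ∃ s, lw V le r s ∧ F (y.2, s)) (In.imp ?_ ?_)
  · exact hP.inlw.comp (f := fun z : (P × U) × P => (z.2, z.1.1))
      (IF.pair IF.snd (IF.fst.comp IF.fst))
  · refine In.ex (P := fun (z : (P × U) × P) (r : P) => lw V le r z.2 ∧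
      ∃ s, lw V le r s ∧ F (z.1.2, s)) (In.and ?_ ?_)
    · exact hP.inlw.comp (f := fun z : ((P × U) × P) × P => (z.2, z.1.2))
        (IF.pair IF.snd (IF.snd.comp IF.fst))
    · refine In.ex (P := fun (z : ((P × U) × P) × P) (s : P) => lw V le z.2 s ∧
        F (z.1.1.2, s)) (In.and ?_ ?_)
      · exact hP.inlw.comp (f := fun z : (((P × U) × P) × P) × P => (z.1.2, z.2))
          (IF.pair (IF.snd.comp IF.fst) IF.snd)
      · exact hF.comp (f := fun z : (((P × U) × P) × P) × P => (z.1.1.1.2, z.2))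
          (IF.pair (IF.snd.comp (IF.fst.comp (IF.fst.comp IF.fst))) IF.snd)

theorem Fd.mono (hP : Po S V le) {F : U × P → Prop} {p q : P} {t : U} (h : Fd V le F p t)
    (hq : lw V le q p) : Fd V le F q t := fun r hr => h r (hP.lw_trans hr hq)

theorem Fd.dense (hP : Po S V le) {F : U × P → Prop} {p : P} {t : U}
    (h : ∀ q, lw V le q p → ∃ r, lw V le r q ∧ Fd V le F r t) : Fd V le F p t := by
  intro q hq
  obtain ⟨r, hr, h1⟩ := h q hq
  obtain ⟨s, hs, h2⟩ := h1 r (hP.lw_refl hr.1)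
  exact ⟨s, hP.lw_trans hs hr, h2⟩

theorem Fd.truth (hP : Po S V le) (hG : Gt S V le G) {F : U × P → Prop} (hF : In S F) {t : U} :
    (∃ p ∈ G, F (t, p)) ↔ ∃ p ∈ G, Fd V le F p t := by
  constructor
  · rintro ⟨p, hp, h⟩
    exact ⟨p, hp, fun q hq => ⟨q, hP.lw_refl hq.1, p, hq, h⟩⟩
  · rintro ⟨p, hp, h⟩
    obtain ⟨r, hr, s, hs, h1⟩ := hG.belw hP (D := fun r => ∃ s, lw V le r s ∧ F (t, s)) (by
      refine In.ex (P := fun (r s : P) => lw V le r s ∧ F (t, s)) (In.and hP.inlw ?_)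
      exact hF.comp (f := fun y : P × P => (t, y.2)) (IF.pair (IF.const t) IF.snd)) hp h
    exact ⟨s, hG.lw_up hr hs, h1⟩

/-- an implication which holds in the extension is forced by a member of the filter -/
theorem exists_forces (hP : Po S V le) (hG : Gt S V le G) {A B : P → U → Prop}
    (hA : In S (fun y : P × U => A y.1 y.2)) (hB : In S (fun y : P × U => B y.1 y.2))
    (hAm : ∀ p q t, A p t → lw V le q p → A q t) (hBm : ∀ p q t, B p t → lw V le q p → B q t)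
    (hBd : ∀ p t, (∀ q, lw V le q p → ∃ r, lw V le r q ∧ B r t) → B p t)
    (h : ∀ t, (∃ p ∈ G, A p t) → ∃ p ∈ G, B p t) :
    ∃ p₀ ∈ G, ∀ p, lw V le p p₀ → ∀ t, A p t → B p t := by
  have hno : In S (fun y : P × U => ∀ r, lw V le r y.1 → ¬ B r y.2) := by
    refine In.all (P := fun (y : P × U) (r : P) => lw V le r y.1 → ¬ B r y.2) (In.imp ?_
      (In.not ?_))
    · exact hP.inlw.comp (f := fun z : (P × U) × P => (z.2, z.1.1))
        (IF.pair IF.snd (IF.fst.comp IF.fst))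
    · exact hB.comp (f := fun z : (P × U) × P => (z.2, z.1.2))
        (IF.pair IF.snd (IF.snd.comp IF.fst))
  have hbad : In S (fun p : P => ∃ t, A p t ∧ ∀ r, lw V le r p → ¬ B r t) :=
    In.ex (P := fun (p : P) (t : U) => A p t ∧ ∀ r, lw V le r p → ¬ B r t) (In.and hA hno)
  have h1 : In S (fun p : P => (∃ t, A p t ∧ ∀ r, lw V le r p → ¬ B r t) ∨
      ¬ ∃ q, lw V le q p ∧ ∃ t, A q t ∧ ∀ r, lw V le r q → ¬ B r t) := by
    refine In.or hbad (In.not (In.ex (P := fun (p q : P) => lw V le q p ∧ ∃ t, A q t ∧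
      ∀ r, lw V le r q → ¬ B r t) (In.and ?_ ?_)))
    · exact hP.inlw.comp (f := fun y : P × P => (y.2, y.1)) (IF.pair IF.snd IF.fst)
    · exact hbad.comp IF.snd
  obtain ⟨p₀, hp₀, h2 | h2⟩ := hG.meets (ISet.mk h1) (by
    intro p hp
    by_cases hc : ∃ q, lw V le q p ∧ ∃ t, A q t ∧ ∀ r, lw V le r q → ¬ B r t
    · obtain ⟨q, hq, h3⟩ := hc
      exact ⟨q, hq.1, hq.2.2, Or.inl h3⟩
    · exact ⟨p, hp, hP.refl p hp, Or.inr hc⟩)
  · obtain ⟨t, h3, h4⟩ := h2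
    obtain ⟨q, hq, h5⟩ := h t ⟨p₀, hp₀, h3⟩
    obtain ⟨r, -, h6, h7⟩ := hG.lw_dir hp₀ hq
    exact absurd (hBm _ _ _ h5 h7) (h4 r h6)
  · refine ⟨p₀, hp₀, fun p hp t hA' => hBd _ _ fun q hq => ?_⟩
    by_contra hc
    push Not at hc
    exact h2 ⟨q, hP.lw_trans hq hp, t, hAm _ _ _ hA' hq, hc⟩

end

section two

variable {S : Set ZFSet.{0}} [Mdl S] {P : Type v} [Cd S P] {V : Set P} {le : P → P → Prop}
  {G : Set P} {N : Set ZFSet.{0}} [Mdl N] {T : Type w} [Cd S T] [Cd N T] [Cx S N T]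
  {V₂ : Set T} {le₂ : T → T → Prop} {H : Set T}

/-- **two-step iterations** -/
theorem two_step (hP : Po S V le) (hG : Gt S V le G) (hN : N = ext S G) (hP₂ : Po N V₂ le₂)
    (hG₂ : Gt N V₂ le₂ H) : ∃ (V' : Set (P × T)) (le' : P × T → P × T → Prop) (G' : Set (P × T)),
    Po S V' le' ∧ Gt S V' le' G' ∧ ext S G' = ext N H := by
  obtain ⟨F, hF, hFt⟩ := (In_ext_iff hP hG hN).1 hP₂.inV
  obtain ⟨K, hK, hKt⟩ := (In_ext_iff hP hG hN (T := T × T)).1 hP₂.inle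
  have hFt' : ∀ t, t ∈ V₂ ↔ ∃ p ∈ G, Fd V le F p t := fun t =>
    (hFt t).trans (Fd.truth hP hG hF)
  have hKt' : ∀ y : T × T, (y.1 ∈ V₂ ∧ y.2 ∈ V₂ ∧ le₂ y.1 y.2) ↔ ∃ p ∈ G, Fd V le K p y :=
    fun y => (hKt y).trans (Fd.truth hP hG hK)
  have hFi := Fd.inI hP hF
  have hKi := Fd.inI hP hK
  -- the iteration is a preorder below some condition
  obtain ⟨p₁, hp₁, hrefl⟩ := exists_forces hP hG (U := T) (A := fun p t => Fd V le F p t)
    (B := fun p t => Fd V le K p (t, t)) hFi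
    (hKi.comp (f := fun y : P × T => (y.1, (y.2, y.2))) (IF.pair IF.fst (IF.pair IF.snd IF.snd)))
    (fun p q t h hq => h.mono hP hq) (fun p q t h hq => h.mono hP hq)
    (fun p t h => Fd.dense hP h) (fun t ht => (hKt' (t, t)).1
      ⟨(hFt' t).2 ht, (hFt' t).2 ht, hP₂.refl t ((hFt' t).2 ht)⟩)
  obtain ⟨p₂, hp₂, htrans⟩ := exists_forces hP hG (U := T × T × T)
    (A := fun p x => Fd V le K p (x.1, x.2.1) ∧ Fd V le K p (x.2.1, x.2.2))
    (B := fun p x => Fd V le K p (x.1, x.2.2))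
    (In.and (hKi.comp (f := fun y : P × T × T × T => (y.1, (y.2.1, y.2.2.1)))
        (IF.pair IF.fst (IF.pair (IF.fst.comp IF.snd) (IF.fst.comp (IF.snd.comp IF.snd)))))
      (hKi.comp (f := fun y : P × T × T × T => (y.1, (y.2.2.1, y.2.2.2)))
        (IF.pair IF.fst (IF.pair (IF.fst.comp (IF.snd.comp IF.snd))
          (IF.snd.comp (IF.snd.comp IF.snd))))))
    (hKi.comp (f := fun y : P × T × T × T => (y.1, (y.2.1, y.2.2.2)))
      (IF.pair IF.fst (IF.pair (IF.fst.comp IF.snd) (IF.snd.comp (IF.snd.comp IF.snd)))))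
    (fun p q t h hq => ⟨h.1.mono hP hq, h.2.mono hP hq⟩) (fun p q t h hq => h.mono hP hq)
    (fun p t h => Fd.dense hP h) (by
      rintro ⟨t, t', t''⟩ ⟨p, hp, h1, h2⟩
      have h3 := (hKt' (t, t')).2 ⟨p, hp, h1⟩
      have h4 := (hKt' (t', t'')).2 ⟨p, hp, h2⟩
      exact (hKt' (t, t'')).1 ⟨h3.1, h4.2.1, hP₂.trans _ h3.1 _ h3.2.1 _ h4.2.1 h3.2.2 h4.2.2⟩)
  obtain ⟨p₀, hp₀, h01, h02⟩ := hG.lw_dir hp₁ hp₂
  have hPo : Po S {y : P × T | lw V le y.1 p₀ ∧ Fd V le F y.1 y.2}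
      (fun y z => lw V le y.1 z.1 ∧ Fd V le K y.1 (y.2, z.2)) := by
    have h1 : In S (fun y : P × T => lw V le y.1 p₀ ∧ Fd V le F y.1 y.2) :=
      In.and (hP.inlw.comp (f := fun y : P × T => (y.1, p₀)) (IF.pair IF.fst (IF.const p₀))) hFi
    refine ⟨h1, ?_, ?_, ?_⟩
    · refine In.and (h1.comp IF.fst) (In.and (h1.comp IF.snd) (In.and ?_ ?_))
      · exact hP.inlw.comp (f := fun y : (P × T) × P × T => (y.1.1, y.2.1))
          (IF.pair (IF.fst.comp IF.fst) (IF.fst.comp IF.snd))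
      · exact hKi.comp (f := fun y : (P × T) × P × T => (y.1.1, (y.1.2, y.2.2)))
          (IF.pair (IF.fst.comp IF.fst) (IF.pair (IF.snd.comp IF.fst) (IF.snd.comp IF.snd)))
    · rintro ⟨p, t⟩ ⟨h2, h3⟩
      exact ⟨hP.lw_refl h2.1, hrefl p (hP.lw_trans h2 h01) t h3⟩
    · rintro ⟨p, t⟩ ⟨h2, h3⟩ ⟨q, t'⟩ ⟨h4, h5⟩ ⟨r, t''⟩ ⟨h6, h7⟩ ⟨h8, h9⟩ ⟨h10, h11⟩
      exact ⟨hP.lw_trans h8 h10, htrans p (hP.lw_trans h2 h02) (t, t', t'')
        ⟨h9, h11.mono hP h8⟩⟩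
  have hGt : Gt S {y : P × T | lw V le y.1 p₀ ∧ Fd V le F y.1 y.2}
      (fun y z => lw V le y.1 z.1 ∧ Fd V le K y.1 (y.2, z.2))
      {y : P × T | (lw V le y.1 p₀ ∧ Fd V le F y.1 y.2) ∧ y.1 ∈ G ∧ y.2 ∈ H} := by
    refine ⟨fun y h => h.1, ?_, ?_, ?_, ?_⟩
    · obtain ⟨t, ht⟩ := hG₂.ne
      obtain ⟨p, hp, h1⟩ := (hFt' t).1 (hG₂.sub t ht)
      obtain ⟨r, hr, h2, h3⟩ := hG.lw_dir hp hp₀
      exact ⟨(r, t), ⟨h3, h1.mono hP h2⟩, hr, ht⟩
    · rintro ⟨p, t⟩ ⟨h1, h2, h3⟩ ⟨q, t'⟩ h4 ⟨h5, h6⟩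
      have h7 := (hKt' (t, t')).2 ⟨p, h2, h6⟩
      exact ⟨h4, hG.lw_up h2 h5, hG₂.up t h3 t' h7.2.1 h7.2.2⟩
    · rintro ⟨p, t⟩ ⟨h1, h2, h3⟩ ⟨q, t'⟩ ⟨h4, h5, h6⟩
      obtain ⟨u, hu, h7, h8⟩ := hG₂.dir t h3 t' h6
      obtain ⟨a, ha, h9⟩ := (hKt' (u, t)).1 ⟨hG₂.sub u hu, hG₂.sub t h3, h7⟩
      obtain ⟨b, hb, h10⟩ := (hKt' (u, t')).1 ⟨hG₂.sub u hu, hG₂.sub t' h6, h8⟩
      obtain ⟨c, hc, h11⟩ := (hFt' u).1 (hG₂.sub u hu)
      obtain ⟨r₁, hr₁, h12, h13⟩ := hG.lw_dir h2 h5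
      obtain ⟨r₂, hr₂, h14, h15⟩ := hG.lw_dir ha hb
      obtain ⟨r₃, hr₃, h16, h17⟩ := hG.lw_dir hr₁ hr₂
      obtain ⟨r, hr, h18, h19⟩ := hG.lw_dir hr₃ hc
      have h20 := hP.lw_trans h18 h16
      have h21 := hP.lw_trans h18 h17
      exact ⟨(r, u), ⟨⟨hP.lw_trans (hP.lw_trans h20 h12) h1.1, h11.mono hP h19⟩, hr, hu⟩,
        ⟨hP.lw_trans h20 h12, h9.mono hP (hP.lw_trans h21 h14)⟩,
        hP.lw_trans h20 h13, h10.mono hP (hP.lw_trans h21 h15)⟩
    · intro D hD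
      have hDi : In S (fun y : T × P => (lw V le y.2 p₀ ∧ Fd V le F y.2 y.1) ∧ (y.2, y.1) ∈ D) := by
        refine In.and (In.and ?_ ?_) ?_
        · exact hP.inlw.comp (f := fun y : T × P => (y.2, p₀)) (IF.pair IF.snd (IF.const p₀))
        · exact hFi.comp (f := fun y : T × P => (y.2, y.1)) (IF.pair IF.snd IF.fst)
        · exact D.in_mem.comp (f := fun y : T × P => (y.2, y.1)) (IF.pair IF.snd IF.fst)
      have hD2 : In N (fun t : T => ∃ p ∈ G, (lw V le p p₀ ∧ Fd V le F p t) ∧ (p, t) ∈ D) :=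
        (In_ext_iff hP hG hN).2 ⟨_, hDi, fun t => Iff.rfl⟩
      obtain ⟨t, ht, p, hp, h1, h2⟩ := hG₂.meets (ISet.mk hD2) (by
        intro t ht
        obtain ⟨c, hc, h1⟩ := (hFt' t).1 ht
        obtain ⟨p, hp, h2, h3⟩ := hG.lw_dir hc hp₀
        have h4 := h1.mono hP h2
        obtain ⟨q, hq, t', h5, h6, h7, h8⟩ := hG.belw hP (D := fun q => ∃ t', (lw V le q p₀ ∧
            Fd V le F q t') ∧ (q, t') ∈ D ∧ lw V le q p ∧ Fd V le K q (t', t)) (by
          refine In.ex (P := fun (q : P) (t' : T) => (lw V le q p₀ ∧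
            Fd V le F q t') ∧ (q, t') ∈ D ∧ lw V le q p ∧ Fd V le K q (t', t)) ?_
          refine In.and (In.and ?_ hFi) (In.and D.in_mem (In.and ?_ ?_))
          · exact hP.inlw.comp (f := fun y : P × T => (y.1, p₀)) (IF.pair IF.fst (IF.const p₀))
          · exact hP.inlw.comp (f := fun y : P × T => (y.1, p)) (IF.pair IF.fst (IF.const p))
          · exact hKi.comp (f := fun y : P × T => (y.1, (y.2, t)))
              (IF.pair IF.fst (IF.pair IF.snd (IF.const t)))) hp (by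
          intro q hq
          obtain ⟨⟨r, t'⟩, h5, ⟨h6, h7⟩, h8⟩ := hD (q, t) ⟨hP.lw_trans hq h3, h4.mono hP hq⟩
          exact ⟨r, h6, t', h5, h8, hP.lw_trans h6 hq, h7⟩)
        have h9 := (hKt' (t', t)).2 ⟨q, hq, h8⟩
        exact ⟨t', h9.1, h9.2.2, q, hq, h5, h6⟩)
      exact ⟨(p, t), ⟨h1, hp, ht⟩, h2⟩
  refine ⟨_, _, _, hPo, hGt, ?_⟩
  have hSN : S ⊆ N := hN ▸ sub_ext hP hG
  apply Set.Subset.antisymm
  · -- the extension of the iteration is contained in the iterated extension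
    have := ext_mdl hP₂ hG₂
    have hNE := sub_ext hP₂ hG₂
    let _ := CdUp (hSN.trans hNE) P
    let _ := CdUp (hSN.trans hNE) T
    have := cx_up (hSN.trans hNE) P
    have hcT : Cx S (ext N H) T := cx_up (hSN.trans hNE) T
    have : Cx N (ext N H) T := (Cx.symm (inferInstance : Cx S N T)).trans hcT
    let _ := CdUp hSN P
    have : Cx S N P := cx_up hSN P
    have : Cx N (ext N H) P := (Cx.symm (inferInstance : Cx S N P)).trans inferInstance
    have hGN : In (ext N H) (fun p : P => p ∈ G) := In_up hNE (In_gen hP hG hN)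
    have hHN : In (ext N H) (fun t : T => t ∈ H) := In_gen hP₂ hG₂ rfl
    have hV' : In (ext N H) (fun y : P × T => lw V le y.1 p₀ ∧ Fd V le F y.1 y.2) :=
      In_up (hSN.trans hNE) hPo.inV
    refine ext_sub (hSN.trans hNE) ?_
    exact In.and hV' (In.and (hGN.comp IF.fst) (hHN.comp IF.snd))
  · -- conversely
    obtain ⟨G', hG'⟩ : ∃ G' : Set (P × T), G' = {y : P × T | (lw V le y.1 p₀ ∧
      Fd V le F y.1 y.2) ∧ y.1 ∈ G ∧ y.2 ∈ H} := ⟨_, rfl⟩
    rw [← hG'] at hGt ⊢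
    have := ext_mdl hPo hGt
    have hSE := sub_ext hPo hGt
    let _ := CdUp hSE P
    let _ := CdUp hSE T
    have := cx_up hSE P
    have hcT : Cx S (ext S G') T := cx_up hSE T
    have hg : In (ext S G') (fun y : P × T => y ∈ G') := In_gen hPo hGt rfl
    have hlwE : In (ext S G') (fun y : P × P => lw V le y.1 y.2) := In_up hSE hP.inlw
    have hgG : In (ext S G') (fun p : P => p ∈ G) := by
      refine In.congr (P := fun p : P => ∃ y : P × T, y ∈ G' ∧ lw V le y.1 p) ?_ fun p => ?_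
      · refine In.ex (P := fun (p : P) (y : P × T) => y ∈ G' ∧ lw V le y.1 p)
          (In.and (hg.comp IF.snd) ?_)
        exact hlwE.comp (f := fun z : P × P × T => (z.2.1, z.1))
          (IF.pair (IF.fst.comp IF.snd) IF.fst)
      · constructor
        · intro hp
          obtain ⟨t, ht⟩ := hG₂.ne
          obtain ⟨c, hc, h1⟩ := (hFt' t).1 (hG₂.sub t ht)
          obtain ⟨r, hr, h2, h3⟩ := hG.lw_dir hc hp₀
          obtain ⟨r', hr', h4, h5⟩ := hG.lw_dir hr hp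
          refine ⟨(r', t), ?_, h5⟩
          rw [hG']
          exact ⟨⟨hP.lw_trans h4 h3, h1.mono hP (hP.lw_trans h4 h2)⟩, hr', ht⟩
        · rintro ⟨y, hy, h1⟩
          rw [hG'] at hy
          exact hG.lw_up hy.2.1 h1
    have hNE : N ⊆ ext S G' := hN ▸ ext_sub hSE hgG
    have : Cx N (ext S G') T := (Cx.symm (inferInstance : Cx S N T)).trans hcT
    refine ext_sub hNE ?_
    refine In.congr (P := fun t : T => ∃ p : P, (p, t) ∈ G') ?_ fun t => ?_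
    · exact In.ex (P := fun (t : T) (p : P) => (p, t) ∈ G')
        (hg.comp (f := fun z : T × P => (z.2, z.1)) (IF.pair IF.snd IF.fst))
    · constructor
      · intro ht
        obtain ⟨c, hc, h1⟩ := (hFt' t).1 (hG₂.sub t ht)
        obtain ⟨r, hr, h2, h3⟩ := hG.lw_dir hc hp₀
        refine ⟨r, ?_⟩
        rw [hG']
        exact ⟨⟨h3, h1.mono hP h2⟩, hr, ht⟩
      · rintro ⟨p, hp⟩
        rw [hG'] at hp
        exact hp.2.2

end two

end Pool.Agent.H.MP_20495c_lc
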