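import Pool.Agent.H.MP_20495c_lc.IT.Conv
import Pool.Agent.H.MP_20495c_lc.IT.Pull
import Pool.Agent.H.MP_20495c_lc.IT.Two

/-!
# MP_20495c_lc, block IT, part 4: a generic extension of a generic extension is a generic extension
-/

set_option autoImplicit false
set_option linter.unusedSectionVars false

namespace Pool.Agent.H.MP_20495c_lc

open Pool.Agent.H.MP_07d118_lc Pool.Agent.H.MP_a163f2_lc Pool.Agent.H.MP_a163f2_lc.L

universe u v w x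

/-- every set of the extension is the image of a set of the ground model under a function of the
extension -/
theorem exists_surj {S N : Set ZFSet.{0}} [Mdl S] [Mdl N] (h : GExt S N) (Q : N)
    (q₀ : MP_07d118_lc.El Q) : ∃ (A : S) (j : MP_07d118_lc.El A → MP_07d118_lc.El Q),
    (let _ := CdUp h.sub (MP_07d118_lc.El A); IF N j) ∧ Function.Surjective j := by
  classical
  have hSN : S ⊆ N := h.sub
  obtain ⟨P, L, G, hPo, hGt, hN⟩ := h.typed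
  obtain ⟨𝒢, h𝒢⟩ : ∃ 𝒢 : Set S, 𝒢 = {x : S | (x : ZFSet.{0}) ∈ cds S (sG P G)} := ⟨_, rfl⟩
  have hNE : N = Z.Ex (Z.zval 𝒢) := by rw [hN, h𝒢]; rfl
  have hgx : ∃ g ∈ N, ∀ x : S, (x : ZFSet.{0}) ∈ g ↔ 𝒢 x := by
    let _ := CdUp hSN (MP_07d118_lc.El P)
    have hcx : Cx S N (MP_07d118_lc.El P) := cx_up hSN _
    have h1 := In_gen hPo hGt hN
    refine ⟨((ISet.mk h1).cod : N).1, ((ISet.mk h1).cod : N).2, fun x => ?_⟩
    rw [mem_cod_val]
    have h2 : 𝒢 x ↔ (x : ZFSet.{0}) ∈ cds S (sG P G) := by rw [h𝒢]; rfl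
    rw [h2]
    constructor
    · rintro ⟨p, hp, e⟩
      exact ⟨p, hp, (hcx.eq p).trans e⟩
    · rintro ⟨p, hp, e⟩
      exact ⟨p, hp, (hcx.eq p).symm.trans e⟩
  obtain ⟨g, hg, hg𝒢⟩ := hgx
  obtain ⟨σ, hσ⟩ : ∃ σ : S, Z.zval 𝒢 σ = (Q : ZFSet.{0}) := by
    have h1 : (Q : ZFSet.{0}) ∈ Z.Ex (Z.zval 𝒢) := hNE ▸ Q.2
    exact h1
  have hspec := Vgr_spec (S := S) (N := N) Mdl.tr Mdl.tr hSN 𝒢 hg hg𝒢 σ
  obtain ⟨U, hU⟩ : ∃ U : N, U = Vgr (M := N) ⟨g, hg⟩ ⟨σ.1, hSN σ.2⟩ := ⟨_, rfl⟩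
  rw [← hU] at hspec
  let _ := CdUp hSN (MP_07d118_lc.El (tcs σ))
  have hA : ∀ (x : MP_07d118_lc.El (tcs σ)) (q : MP_07d118_lc.El Q),
      opair (Cd.code x : N) q.1 ∈ U ↔ Z.zval 𝒢 x.1 = ((q.1 : N) : ZFSet.{0}) := by
    intro x q
    rw [hspec.2, Z.abs_opair Mdl.tr]
    constructor
    · rintro ⟨y, hy, e⟩
      obtain ⟨e1, e2⟩ := ZFSet.pair_inj.1 e
      have e3 : x.1 = y := Subtype.ext e1
      rw [e3]
      exact e2.symm
    · intro e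
      exact ⟨x.1, x.2, by rw [e]; rfl⟩
  have hAi : In N (fun y : MP_07d118_lc.El (tcs σ) × MP_07d118_lc.El Q =>
      Z.zval 𝒢 y.1.1 = ((y.2.1 : N) : ZFSet.{0})) := by
    refine In.of_df (R := fun x => x ∈ U) (Df.mem (DfF.var 0) (DfF.const _)) fun y => ?_
    exact (hA y.1 y.2).symm
  let j : MP_07d118_lc.El (tcs σ) → MP_07d118_lc.El Q := fun x =>
    if hx : ∃ q : MP_07d118_lc.El Q, Z.zval 𝒢 x.1 = ((q.1 : N) : ZFSet.{0}) then hx.choose else q₀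
  have hj : ∀ (x : MP_07d118_lc.El (tcs σ)) (q : MP_07d118_lc.El Q),
      Z.zval 𝒢 x.1 = ((q.1 : N) : ZFSet.{0}) → j x = q := by
    intro x q hx
    have hc : ∃ q : MP_07d118_lc.El Q, Z.zval 𝒢 x.1 = ((q.1 : N) : ZFSet.{0}) := ⟨q, hx⟩
    have h1 : j x = hc.choose := dif_pos hc
    rw [h1]
    exact Subtype.ext (Subtype.ext (hc.choose_spec.symm.trans hx))
  refine ⟨tcs σ, j, ?_, ?_⟩
  · refine IF.of_in (In.congr (P := fun y : MP_07d118_lc.El (tcs σ) × MP_07d118_lc.El Q =>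
      Z.zval 𝒢 y.1.1 = ((y.2.1 : N) : ZFSet.{0}) ∨ ((¬ ∃ q : MP_07d118_lc.El Q,
        Z.zval 𝒢 y.1.1 = ((q.1 : N) : ZFSet.{0})) ∧ y.2 = q₀)) ?_ fun y => ?_)
    · refine In.or hAi (In.and (In.not ?_) (In.eq IF.snd (IF.const q₀)))
      refine In.ex (P := fun (y : MP_07d118_lc.El (tcs σ) × MP_07d118_lc.El Q)
        (q : MP_07d118_lc.El Q) => Z.zval 𝒢 y.1.1 = ((q.1 : N) : ZFSet.{0})) ?_
      exact hAi.comp (f := fun z : (MP_07d118_lc.El (tcs σ) × MP_07d118_lc.El Q) ×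
        MP_07d118_lc.El Q => (z.1.1, z.2)) (IF.pair (IF.fst.comp IF.fst) IF.snd)
    · by_cases hc : ∃ q : MP_07d118_lc.El Q, Z.zval 𝒢 y.1.1 = ((q.1 : N) : ZFSet.{0})
      · obtain ⟨q, hq⟩ := hc
        rw [hj y.1 q hq]
        constructor
        · rintro rfl
          exact Or.inl hq
        · rintro (h1 | ⟨h1, -⟩)
          · exact Subtype.ext (Subtype.ext (hq.symm.trans h1))
          · exact absurd ⟨q, hq⟩ h1
      · have h1 : j y.1 = q₀ := dif_neg hc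
        rw [h1]
        constructor
        · rintro h2
          exact Or.inr ⟨hc, h2.symm⟩
        · rintro (h2 | ⟨-, h2⟩)
          · exact absurd ⟨y.2, h2⟩ hc
          · exact h2.symm
  · intro q
    have h1 : ((q.1 : N) : ZFSet.{0}) ∈ Z.zval 𝒢 σ := hσ ▸ q.2
    obtain ⟨π, p, -, h2, h3⟩ := (Z.isVal_zval (S := S) 𝒢 σ _).1 h1
    have h4 : π ∈ tcs σ := by
      refine mem_tcs.2 (Or.inl (tc_eq.2 ⟨_, h2, ?_⟩))
      have h5 : upair π p ∈ tcs (opair π p) :=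
        tcs_trs _ _ (self_mem_tcs _) _ (mem_upair.2 (Or.inr rfl))
      exact tcs_trs _ _ h5 _ (mem_upair.2 (Or.inl rfl))
    exact ⟨⟨π, h4⟩, hj _ _ h3.symm⟩

/-- **two-step iterations** -/
theorem GExt.trans {S N N' : Set ZFSet.{0}} [Mdl S] [Mdl N] (h : GExt S N) (h' : GExt N N') :
    GExt S N' := by
  have hSN : S ⊆ N := h.sub
  obtain ⟨P, L, G, hPo, hGt, hN⟩ := h.typed
  obtain ⟨Q, K, H, hPo', hGt', rfl⟩ := h'.typed
  obtain ⟨q₀, hq₀⟩ := hGt'.ne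
  obtain ⟨A, j, hj, hs⟩ := exists_surj h Q q₀
  let _ := CdUp hSN (MP_07d118_lc.El A)
  have : Cx S N (MP_07d118_lc.El A) := cx_up hSN _
  have h1 := po_pull hPo' hj
  have h2 := gt_pull hGt' hj (fun p _ => hs p)
  have h3 := ext_pull hPo' hGt' hj (fun p _ => hs p)
  obtain ⟨V', le', G', hP', hG', h4⟩ := two_step hPo hGt hN h1 h2
  rw [← h3, ← h4]
  exact gext_ext0 hP' hG'

/-- the trivial extension -/
theorem GExt.refl (S : Set ZFSet.{0}) [Mdl S] : GExt S S := by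
  have h0 : In S (fun p : ℕ => p = 0) := In.nat_eq IF.id 0
  have hP : Po S {p : ℕ | p = 0} (fun _ _ => True) :=
    ⟨h0, In.and (h0.comp IF.fst) (In.and (h0.comp IF.snd) (In.const True)), fun _ _ => trivial,
      fun _ _ _ _ _ _ _ _ => trivial⟩
  have hG : Gt S {p : ℕ | p = 0} (fun _ _ => True) {p : ℕ | p = 0} := by
    refine ⟨fun _ h => h, ⟨0, rfl⟩, fun _ _ q hq _ => hq, fun _ hp _ _ => ⟨0, rfl, trivial,
      trivial⟩, fun D hD => ?_⟩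
    obtain ⟨q, h1, -, h2⟩ := hD 0 rfl
    exact ⟨q, h1, h2⟩
  have h1 : ext S {p : ℕ | p = 0} = S := Set.Subset.antisymm
    (ext_sub (hx := Cx.refl S ℕ) (Set.Subset.refl S) h0) (sub_ext hP hG)
  have h2 := gext_ext0 hP hG
  rwa [h1] at h2

end Pool.Agent.H.MP_20495c_lc
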