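import Pool.Agent.H.MP_20495c_lc.TE
import Pool.Agent.H.MP_20495c_lc.TE.TSg
import Pool.Agent.H.MP_20495c_lc.Un0

/-!
# MP_20495c_lc, block IT, part 5: the poset below a condition; forcing a uniformization statement
-/

set_option autoImplicit false
set_option linter.unusedSectionVars false

namespace Pool.Agent.H.MP_20495c_lc

open Pool.Agent.H.MP_07d118_lc Pool.Agent.H.MP_a163f2_lc Pool.Agent.H.MP_a163f2_lc.L

universe u v w x

section

variable {S : Set ZFSet.{0}} [Mdl S] {P : Type v} [Cd S P] {V : Set P} {le : P → P → Prop}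

/-- a generic filter in the sense of sets is a typed generic filter -/
theorem gt_of_generic (hP : Po S V le) {G : Set ZFSet.{0}}
    (hG : Generic S (((ISet.mk hP.inV).cod : S) : ZFSet.{0})
      (((ISet.mk hP.inle).cod : S) : ZFSet.{0}) G) :
    Gt S V le {p | ((Cd.code p : S) : ZFSet.{0}) ∈ G} ∧
      cds S {p : P | ((Cd.code p : S) : ZFSet.{0}) ∈ G} = G := by
  have hc : ∀ z ∈ G, ∃ p ∈ V, ((Cd.code p : S) : ZFSet.{0}) = z := fun z hz =>
    (mem_posetV hP).1 (hG.sub z hz)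
  have hV : ∀ p : P, ((Cd.code p : S) : ZFSet.{0}) ∈ G → p ∈ V := by
    intro p hp
    obtain ⟨q, hq, e⟩ := hc _ hp
    rwa [Cd.inj (M := S) (Subtype.ext e)] at hq
  refine ⟨⟨hV, ?_, ?_, ?_, ?_⟩, ?_⟩
  · obtain ⟨z, hz⟩ := hG.ne
    obtain ⟨p, -, rfl⟩ := hc z hz
    exact ⟨p, hz⟩
  · intro p hp q hq h
    exact hG.up _ hp _ ((mem_posetV hP).2 ⟨q, hq, rfl⟩) ((pair_mem_posetL hP).2 ⟨hV p hp, hq, h⟩)
  · intro p hp q hq
    obtain ⟨z, hz, h1, h2⟩ := hG.dir _ hp _ hq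
    obtain ⟨r, -, rfl⟩ := hc z hz
    exact ⟨r, hz, ((pair_mem_posetL hP).1 h1).2.2, ((pair_mem_posetL hP).1 h2).2.2⟩
  · intro D hD
    obtain ⟨z, hz, h1⟩ := hG.meets _ (D.cod : S).2 fun z hz => by
      obtain ⟨p, hp, rfl⟩ := (mem_posetV hP).1 hz
      obtain ⟨q, hq, h1, h2⟩ := hD p hp
      exact ⟨_, (mem_posetV hP).2 ⟨q, hq, rfl⟩, (pair_mem_posetL hP).2 ⟨hq, hp, h1⟩,
        mem_cod_val.2 ⟨q, h2, rfl⟩⟩
    obtain ⟨p, hp, rfl⟩ := mem_cod_val.1 h1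
    exact ⟨p, hz, hp⟩
  · ext z
    constructor
    · rintro ⟨p, hp, rfl⟩
      exact hp
    · intro hz
      obtain ⟨p, -, rfl⟩ := hc z hz
      exact ⟨p, hz, rfl⟩

variable {p : P} {G : Set P}

theorem po_below (hP : Po S V le) (p : P) : Po S {q | lv V le q p} le := by
  have h1 : In S (fun q => lv V le q p) := hP.lv IF.id (IF.const p)
  refine ⟨h1, ?_, fun q hq => hP.refl q hq.1, fun a ha b hb c hc h1 h2 =>
    hP.trans a ha.1 b hb.1 c hc.1 h1 h2⟩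
  refine In.congr (P := fun y : P × P => lv V le y.1 p ∧ lv V le y.2 p ∧ lv V le y.1 y.2)
    (In.and (h1.comp IF.fst) (In.and (h1.comp IF.snd) (hP.lv IF.fst IF.snd))) fun y => ?_
  constructor
  · rintro ⟨h2, h3, h4⟩
    exact ⟨h2, h3, h2.1, h3.1, h4⟩
  · rintro ⟨h2, h3, -, -, h4⟩
    exact ⟨h2, h3, h4⟩

/-- the filter generated by a filter below a condition -/
def upG (V : Set P) (le : P → P → Prop) (G : Set P) : Set P := {q | ∃ r ∈ G, lv V le r q}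

theorem gt_below (hP : Po S V le) (hG : Gt S {q | lv V le q p} le G) :
    Gt S V le (upG V le G) := by
  have hV : ∀ q ∈ G, q ∈ V := fun q hq => (hG.sub q hq).1
  have htr : ∀ {a b c : P}, lv V le a b → lv V le b c → lv V le a c := fun h h' =>
    ⟨h.1, h'.2.1, hP.trans _ h.1 _ h.2.1 _ h'.2.1 h.2.2 h'.2.2⟩
  refine ⟨?_, ?_, ?_, ?_, ?_⟩
  · rintro q ⟨r, -, h⟩
    exact h.2.1
  · obtain ⟨q, hq⟩ := hG.ne
    exact ⟨q, q, hq, hV q hq, hV q hq, hP.refl q (hV q hq)⟩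
  · rintro q ⟨r, hr, h⟩ q' hq' h'
    exact ⟨r, hr, htr h ⟨h.2.1, hq', h'⟩⟩
  · rintro q ⟨r, hr, h⟩ q' ⟨r', hr', h'⟩
    obtain ⟨s, hs, h1, h2⟩ := hG.dir r hr r' hr'
    have h3 := hV s hs
    exact ⟨s, ⟨s, hs, h3, h3, hP.refl s h3⟩, (htr ⟨h3, h.1, h1⟩ h).2.2,
      (htr ⟨h3, h'.1, h2⟩ h').2.2⟩
  · intro D hD
    have hi : In S (fun r : P => ∃ d, d ∈ D ∧ lv V le r d) := by
      refine In.ex (P := fun (r d : P) => d ∈ D ∧ lv V le r d) (In.and (D.in_mem.comp IF.snd) ?_)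
      exact hP.lv IF.fst IF.snd
    obtain ⟨r, hr, d, hd, h1⟩ := hG.meets (ISet.mk hi) (by
      intro q hq
      obtain ⟨d, hd, h1, h2⟩ := hD q hq.1
      exact ⟨d, htr ⟨hd, hq.1, h1⟩ hq, h1, d, h2, hd, hd, hP.refl d hd⟩)
    exact ⟨d, ⟨r, hr, h1⟩, hd⟩

theorem mem_upG (_hP : Po S V le) (hG : Gt S {q | lv V le q p} le G) :
    p ∈ upG V le G := by
  obtain ⟨q, hq⟩ := hG.ne
  exact ⟨q, hq, hG.sub q hq⟩

theorem ext_below (hP : Po S V le) (hG : Gt S {q | lv V le q p} le G) :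
    ext S (upG V le G) = ext S G := by
  have hP' := po_below hP p
  have hG' := gt_below hP hG
  have hV : ∀ q ∈ G, q ∈ V := fun q hq => (hG.sub q hq).1
  apply Set.Subset.antisymm
  · have := ext_mdl hP' hG
    have hsub := sub_ext hP' hG
    let _ := CdUp hsub P
    have := cx_up hsub P
    refine ext_sub hsub ?_
    refine In.ex (P := fun (q r : P) => r ∈ G ∧ lv V le r q) (In.and
      ((In_gen hP' hG rfl).comp IF.snd) ?_)
    exact (In_up hsub (hP.lv (T := P × P) IF.fst IF.snd) :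
      In (ext S G) (fun y : P × P => lv V le y.1 y.2)).comp (f := fun y : P × P => (y.2, y.1))
        (IF.pair IF.snd IF.fst)
  · have := ext_mdl hP hG'
    have hsub := sub_ext hP hG'
    let _ := CdUp hsub P
    have := cx_up hsub P
    refine ext_sub hsub ?_
    refine In.congr (P := fun q : P => lv V le q p ∧ q ∈ upG V le G) (In.and
      (In_up hsub hP'.inV) (In_gen hP hG' rfl)) fun q => ?_
    constructor
    · intro hq
      exact ⟨hG.sub q hq, q, hq, hV q hq, hV q hq, hP.refl q (hV q hq)⟩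
    · rintro ⟨h1, r, hr, h2⟩
      exact hG.up r hr q h1 h2.2.2

end

/-! ### The uniformization statement -/

section un

variable {S : Set ZFSet.{0}} [Mdl S] {P : Type v} [Cd S P] {V : Set P} {le : P → P → Prop}

theorem unC_good (hP : Po S V le) (n : ℕ) :
    Gd S V le (fun (_ : ℕ) G => UnC (Reals (ext S G)) n) := by
  have key : ∀ {T : Type v} [Cd S T] {B X Y : T → ISet S (P × ℕ × ℕ)}, IF S B → IF S X → IF S Y →
      Gd S V le (fun t G => ¬ TS (Reals (ext S G)) n (evp (B t) G)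
        (jn (evp (X t) G) (evp (Y t) G))) := by
    intro T _ B X Y hB hX hY
    exact Gd.not hP (Gd.TS.{v, v} hP n (GdR.evp hP hB) (GdR.jn hP (GdR.evp hP hX)
      (GdR.evp hP hY)))
  refine Gd.allRe hP (Q := fun (_ : ℕ) b G => ∃ b' ∈ Reals (ext S G),
    (∀ x ∈ Reals (ext S G), ∀ y ∈ Reals (ext S G), ¬ TS (Reals (ext S G)) n b' (jn x y) →
      ¬ TS (Reals (ext S G)) n b (jn x y)) ∧
    ∀ x ∈ Reals (ext S G), ∀ y ∈ Reals (ext S G), ¬ TS (Reals (ext S G)) n b (jn x y) →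
      ∃ z ∈ Reals (ext S G), ¬ TS (Reals (ext S G)) n b' (jn x z) ∧
      ∀ z' ∈ Reals (ext S G), ¬ TS (Reals (ext S G)) n b' (jn x z') → z' = z) ?_
  refine Gd.exRe hP (Q := fun (t : ℕ × ISet S (P × ℕ × ℕ)) b' G =>
    (∀ x ∈ Reals (ext S G), ∀ y ∈ Reals (ext S G), ¬ TS (Reals (ext S G)) n b' (jn x y) →
      ¬ TS (Reals (ext S G)) n (evp t.2 G) (jn x y)) ∧
    ∀ x ∈ Reals (ext S G), ∀ y ∈ Reals (ext S G),
      ¬ TS (Reals (ext S G)) n (evp t.2 G) (jn x y) →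
      ∃ z ∈ Reals (ext S G), ¬ TS (Reals (ext S G)) n b' (jn x z) ∧
      ∀ z' ∈ Reals (ext S G), ¬ TS (Reals (ext S G)) n b' (jn x z') → z' = z) ?_
  refine Gd.and hP ?_ ?_
  · refine Gd.allRe hP (Q := fun (t : (ℕ × ISet S (P × ℕ × ℕ)) × ISet S (P × ℕ × ℕ)) x G =>
      ∀ y ∈ Reals (ext S G), ¬ TS (Reals (ext S G)) n (evp t.2 G) (jn x y) →
      ¬ TS (Reals (ext S G)) n (evp t.1.2 G) (jn x y)) ?_
    refine Gd.allRe hP (Q := fun (t : ((ℕ × ISet S (P × ℕ × ℕ)) × ISet S (P × ℕ × ℕ)) ×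
      ISet S (P × ℕ × ℕ)) y G => ¬ TS (Reals (ext S G)) n (evp t.1.2 G) (jn (evp t.2 G) y) →
      ¬ TS (Reals (ext S G)) n (evp t.1.1.2 G) (jn (evp t.2 G) y)) ?_
    exact Gd.imp hP (key (by fun_prop) (by fun_prop) (by fun_prop))
      (key (by fun_prop) (by fun_prop) (by fun_prop))
  · refine Gd.allRe hP (Q := fun (t : (ℕ × ISet S (P × ℕ × ℕ)) × ISet S (P × ℕ × ℕ)) x G =>
      ∀ y ∈ Reals (ext S G), ¬ TS (Reals (ext S G)) n (evp t.1.2 G) (jn x y) →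
      ∃ z ∈ Reals (ext S G), ¬ TS (Reals (ext S G)) n (evp t.2 G) (jn x z) ∧
      ∀ z' ∈ Reals (ext S G), ¬ TS (Reals (ext S G)) n (evp t.2 G) (jn x z') → z' = z) ?_
    refine Gd.allRe hP (Q := fun (t : ((ℕ × ISet S (P × ℕ × ℕ)) × ISet S (P × ℕ × ℕ)) ×
      ISet S (P × ℕ × ℕ)) y G => ¬ TS (Reals (ext S G)) n (evp t.1.1.2 G) (jn (evp t.2 G) y) →
      ∃ z ∈ Reals (ext S G), ¬ TS (Reals (ext S G)) n (evp t.1.2 G) (jn (evp t.2 G) z) ∧
      ∀ z' ∈ Reals (ext S G), ¬ TS (Reals (ext S G)) n (evp t.1.2 G) (jn (evp t.2 G) z') →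
        z' = z) ?_
    refine Gd.imp hP (key (by fun_prop) (by fun_prop) (by fun_prop)) ?_
    refine Gd.exRe hP (Q := fun (t : (((ℕ × ISet S (P × ℕ × ℕ)) × ISet S (P × ℕ × ℕ)) ×
      ISet S (P × ℕ × ℕ)) × ISet S (P × ℕ × ℕ)) z G =>
      ¬ TS (Reals (ext S G)) n (evp t.1.1.2 G) (jn (evp t.1.2 G) z) ∧
      ∀ z' ∈ Reals (ext S G), ¬ TS (Reals (ext S G)) n (evp t.1.1.2 G) (jn (evp t.1.2 G) z') →
        z' = z) ?_
    refine Gd.and hP (key (by fun_prop) (by fun_prop) (by fun_prop)) ?_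
    refine Gd.allRe hP (Q := fun (t : ((((ℕ × ISet S (P × ℕ × ℕ)) × ISet S (P × ℕ × ℕ)) ×
      ISet S (P × ℕ × ℕ)) × ISet S (P × ℕ × ℕ)) × ISet S (P × ℕ × ℕ)) z' G =>
      ¬ TS (Reals (ext S G)) n (evp t.1.1.1.2 G) (jn (evp t.1.1.2 G) z') →
        z' = evp t.2 G) ?_
    refine Gd.imp hP (key (by fun_prop) (by fun_prop) (by fun_prop)) ?_
    exact Gd.eqR hP (GdR.evp hP (by fun_prop)) (GdR.evp hP (by fun_prop))

end un

/-- **The truth lemma for the uniformization statement**: if some generic extension of `S` has the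
property, then some forcing notion of `S` forces it. -/
theorem exists_forcing {S N : Set ZFSet.{0}} [Mdl S] {n : ℕ} (h : GExt S N)
    (hU : UnC (Reals N) n) : ∃ P ∈ S, ∃ L ∈ S, (∃ p, p ∈ P) ∧ (∀ p ∈ P, ZFSet.pair p p ∈ L) ∧
    (∀ p ∈ P, ∀ q ∈ P, ∀ r ∈ P, ZFSet.pair p q ∈ L → ZFSet.pair q r ∈ L → ZFSet.pair p r ∈ L) ∧
    ∀ G : Set ZFSet.{0}, Generic S P L G → UnC (Reals (gext S G)) n := by
  obtain ⟨P, L, G, hPo, hGt, rfl⟩ := h.typed
  obtain ⟨p, hp, hF⟩ := (unC_good hPo n).truth (t := 0) hGt hU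
  have hPo' := po_below hPo p
  refine ⟨_, ((ISet.mk hPo'.inV).cod : S).2, _, ((ISet.mk hPo'.inle).cod : S).2, ?_, ?_, ?_, ?_⟩
  · exact ⟨_, (mem_posetV hPo').2 ⟨p, ⟨trivial, trivial, hPo.refl p trivial⟩, rfl⟩⟩
  · intro z hz
    obtain ⟨a, ha, rfl⟩ := (mem_posetV hPo').1 hz
    exact (pair_mem_posetL hPo').2 ⟨ha, ha, hPo'.refl a ha⟩
  · intro z hz z' hz' z'' hz'' h1 h2
    obtain ⟨a, ha, rfl⟩ := (mem_posetV hPo').1 hz
    obtain ⟨b, hb, rfl⟩ := (mem_posetV hPo').1 hz'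
    obtain ⟨c, hc, rfl⟩ := (mem_posetV hPo').1 hz''
    exact (pair_mem_posetL hPo').2 ⟨ha, hc, hPo'.trans a ha b hb c hc
      ((pair_mem_posetL hPo').1 h1).2.2 ((pair_mem_posetL hPo').1 h2).2.2⟩
  · intro G' hG'
    obtain ⟨h1, h2⟩ := gt_of_generic hPo' hG'
    have h3 : gext S G' = ext S {a : MP_07d118_lc.El P | ((Cd.code a : S) : ZFSet.{0}) ∈ G'} := by
      unfold ext
      rw [h2]
    rw [h3, ← ext_below hPo h1]
    exact hF _ (gt_below hPo h1) (mem_upG hPo h1)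

end Pool.Agent.H.MP_20495c_lc
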