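import Pool.Agent.H.MP_20495c_lc.TE.Typ
import Pool.Agent.H.MP_a163f2_lc.L.B0

/-!
# MP_20495c_lc, block IT, part 1: forcing notions as sets and as typed posets

A generic extension in the sense of `GExt` (the forcing notion is an element of the model) is the
extension by a typed generic filter, and conversely.
-/

set_option autoImplicit false
set_option linter.unusedSectionVars false

namespace Pool.Agent.H.MP_20495c_lc

open Pool.Agent.H.MP_07d118_lc Pool.Agent.H.MP_a163f2_lc Pool.Agent.H.MP_a163f2_lc.L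

universe u v w x

section sets

variable {S : Set ZFSet.{0}} [Mdl S] {P L : S} {G : Set ZFSet.{0}}

/-- the order on the elements of a set given by a set of pairs -/
def sle (P L : S) (a b : MP_07d118_lc.El P) : Prop := opair a.1 b.1 ∈ L

/-- the conditions in `G` -/
def sG (P : S) (G : Set ZFSet.{0}) : Set (MP_07d118_lc.El P) := {a | ((a.1 : S) : ZFSet.{0}) ∈ G}

theorem sle_iff {a b : MP_07d118_lc.El P} :
    sle P L a b ↔ ZFSet.pair ((a.1 : S) : ZFSet.{0}) ((b.1 : S) : ZFSet.{0}) ∈ (L : ZFSet.{0}) := by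
  unfold sle
  rw [← Z.abs_opair Mdl.tr]
  exact Iff.rfl

/-- an element of the set `P`, as an element of the type -/
def sel {P : S} (p : ZFSet.{0}) (hp : p ∈ (P : ZFSet.{0})) : MP_07d118_lc.El P :=
  ⟨⟨p, Mdl.tr _ P.2 p hp⟩, hp⟩

theorem po_sets (hrefl : ∀ p ∈ (P : ZFSet.{0}), ZFSet.pair p p ∈ (L : ZFSet.{0}))
    (htrans : ∀ p ∈ (P : ZFSet.{0}), ∀ q ∈ (P : ZFSet.{0}), ∀ r ∈ (P : ZFSet.{0}),
      ZFSet.pair p q ∈ (L : ZFSet.{0}) → ZFSet.pair q r ∈ (L : ZFSet.{0}) →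
      ZFSet.pair p r ∈ (L : ZFSet.{0})) :
    Po S (Set.univ : Set (MP_07d118_lc.El P)) (sle P L) where
  inV := In.congr (In.const True) fun t => by simp
  inle := by
    refine In.congr (P := fun y : MP_07d118_lc.El P × MP_07d118_lc.El P => opair y.1.1 y.2.1 ∈ L)
      ?_ fun t => by simp [sle]
    exact In.of_df (R := fun x => x ∈ L) (Df.mem (DfF.var 0) (DfF.const _)) fun _ => Iff.rfl
  refl a _ := sle_iff.2 (hrefl _ a.2)
  trans a _ b _ c _ h1 h2 := sle_iff.2 (htrans _ a.2 _ b.2 _ c.2 (sle_iff.1 h1) (sle_iff.1 h2))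

theorem gt_sets (hG : Generic S (P : ZFSet.{0}) (L : ZFSet.{0}) G) :
    Gt S (Set.univ : Set (MP_07d118_lc.El P)) (sle P L) (sG P G) where
  sub _ _ := trivial
  ne := by
    obtain ⟨p, hp⟩ := hG.ne
    exact ⟨sel p (hG.sub p hp), hp⟩
  up a ha b _ h := hG.up _ ha _ b.2 (sle_iff.1 h)
  dir a ha b hb := by
    obtain ⟨r, hr, h1, h2⟩ := hG.dir _ ha _ hb
    exact ⟨sel r (hG.sub r hr), hr, sle_iff.2 h1, sle_iff.2 h2⟩
  meets D hD := by
    have hm : ∀ z : ZFSet.{0}, z ∈ ((D.cod : S) : ZFSet.{0}) ↔ ∃ a, a ∈ D ∧ ((a.1 : S) : ZFSet.{0}) = z :=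
      fun z => mem_cod_val
    obtain ⟨p, hp, h1⟩ := hG.meets _ (D.cod : S).2 fun p hp => by
      obtain ⟨b, -, h1, h2⟩ := hD (sel p hp) trivial
      exact ⟨_, b.2, sle_iff.1 h1, (hm _).2 ⟨b, h2, rfl⟩⟩
    obtain ⟨a, ha, rfl⟩ := (hm p).1 h1
    exact ⟨a, hp, ha⟩

theorem cds_sG (hG : ∀ p ∈ G, p ∈ (P : ZFSet.{0})) : cds S (sG P G) = G := by
  ext z
  constructor
  · rintro ⟨a, ha, rfl⟩
    exact ha
  · intro hz
    exact ⟨sel z (hG z hz), hz, rfl⟩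

theorem gext_eq (hG : ∀ p ∈ G, p ∈ (P : ZFSet.{0})) : gext S G = ext S (sG P G) := by
  unfold ext
  rw [cds_sG hG]

end sets

section typed

variable {S : Set ZFSet.{0}} [Mdl S] {P : Type v} [Cd S P] {V : Set P} {le : P → P → Prop}
  {G : Set P}

theorem mem_posetV (hP : Po S V le) {z : ZFSet.{0}} :
    z ∈ (((ISet.mk hP.inV).cod : S) : ZFSet.{0}) ↔ ∃ t ∈ V, ((Cd.code t : S) : ZFSet.{0}) = z :=
  mem_cod_val

theorem pair_mem_posetL (hP : Po S V le) {p q : P} :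
    ZFSet.pair ((Cd.code p : S) : ZFSet.{0}) ((Cd.code q : S) : ZFSet.{0}) ∈
      (((ISet.mk hP.inle).cod : S) : ZFSet.{0}) ↔ p ∈ V ∧ q ∈ V ∧ le p q := by
  rw [← Z.abs_opair Mdl.tr]
  exact ISet.mem_cod (M := S) (A := ISet.mk hP.inle) (t := (p, q))

/-- the forcing notion, as a set of the model -/
theorem generic_of_gt (hP : Po S V le) (hG : Gt S V le G) :
    Generic S (((ISet.mk hP.inV).cod : S) : ZFSet.{0}) (((ISet.mk hP.inle).cod : S) : ZFSet.{0})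
      (cds S G) where
  sub := by
    rintro _ ⟨p, hp, rfl⟩
    exact (mem_posetV hP).2 ⟨p, hG.sub p hp, rfl⟩
  ne := by
    obtain ⟨p, hp⟩ := hG.ne
    exact ⟨_, p, hp, rfl⟩
  up := by
    rintro _ ⟨p, hp, rfl⟩ _ hz h
    obtain ⟨q, hq, rfl⟩ := (mem_posetV hP).1 hz
    exact ⟨q, hG.up p hp q hq ((pair_mem_posetL hP).1 h).2.2, rfl⟩
  dir := by
    rintro _ ⟨p, hp, rfl⟩ _ ⟨q, hq, rfl⟩
    obtain ⟨r, hr, h1, h2⟩ := hG.dir p hp q hq
    exact ⟨_, ⟨r, hr, rfl⟩, (pair_mem_posetL hP).2 ⟨hG.sub r hr, hG.sub p hp, h1⟩,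
      (pair_mem_posetL hP).2 ⟨hG.sub r hr, hG.sub q hq, h2⟩⟩
  meets := by
    intro D hD h
    obtain ⟨p, hp, h1⟩ := hG.meets (ISet.mk (P := fun p : P => Cd.code p ∈ (⟨D, hD⟩ : S))
      ⟨⟨D, hD⟩, fun _ => Iff.rfl⟩) (by
        intro p hp
        obtain ⟨y, h1, h2, h3⟩ := h _ ((mem_posetV hP).2 ⟨p, hp, rfl⟩)
        obtain ⟨q, hq, rfl⟩ := (mem_posetV hP).1 h1
        exact ⟨q, hq, ((pair_mem_posetL hP).1 h2).2.2, h3⟩)
    exact ⟨_, ⟨p, hp, rfl⟩, h1⟩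

/-- a typed generic extension is a generic extension -/
theorem gext_ext0 (hP : Po S V le) (hG : Gt S V le G) : GExt S (ext S G) := by
  refine ⟨_, ((ISet.mk hP.inV).cod : S).2, _, ((ISet.mk hP.inle).cod : S).2, ?_, ?_, cds S G,
    generic_of_gt hP hG, rfl⟩
  · intro z hz
    obtain ⟨p, hp, rfl⟩ := (mem_posetV hP).1 hz
    exact (pair_mem_posetL hP).2 ⟨hp, hp, hP.refl p hp⟩
  · intro z hz z' hz' z'' hz'' h1 h2
    obtain ⟨p, hp, rfl⟩ := (mem_posetV hP).1 hz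
    obtain ⟨q, hq, rfl⟩ := (mem_posetV hP).1 hz'
    obtain ⟨r, hr, rfl⟩ := (mem_posetV hP).1 hz''
    exact (pair_mem_posetL hP).2 ⟨hp, hr, hP.trans p hp q hq r hr
      ((pair_mem_posetL hP).1 h1).2.2 ((pair_mem_posetL hP).1 h2).2.2⟩

end typed

/-- a generic extension is a typed generic extension -/
theorem GExt.typed {S N : Set ZFSet.{0}} [Mdl S] (h : GExt S N) : ∃ (P L : S) (G : Set ZFSet.{0}),
    Po S (Set.univ : Set (MP_07d118_lc.El P)) (sle P L) ∧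
    Gt S (Set.univ : Set (MP_07d118_lc.El P)) (sle P L) (sG P G) ∧ N = ext S (sG P G) := by
  obtain ⟨P, hP, L, hL, hrefl, htrans, G, hG, rfl⟩ := h
  exact ⟨⟨P, hP⟩, ⟨L, hL⟩, G, po_sets (P := ⟨P, hP⟩) (L := ⟨L, hL⟩) hrefl htrans,
    gt_sets (P := ⟨P, hP⟩) (L := ⟨L, hL⟩) hG, gext_eq (P := ⟨P, hP⟩) hG.sub⟩

theorem GExt.mdl {S N : Set ZFSet.{0}} [Mdl S] (h : GExt S N) : Mdl N := by
  obtain ⟨P, L, G, hP, hG, rfl⟩ := h.typed
  exact ext_mdl hP hG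

theorem GExt.sub {S N : Set ZFSet.{0}} [Mdl S] (h : GExt S N) : S ⊆ N := by
  obtain ⟨P, L, G, hP, hG, rfl⟩ := h.typed
  exact sub_ext hP hG

end Pool.Agent.H.MP_20495c_lc
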